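import Pool.Agent.H74.DZ.MN
import Pool.Agent.H70.DZ.CO
import Pool.Agent.H70.DZ.GA
import Pool.Agent.H92.LIDZ.XF
import Pool.Agent.H73.DZL.DS

/-!
# Zeros of Dirichlet L-functions under real dilations: assembly
-/

set_option autoImplicit false

namespace Pool.Agent.H74.DZ

theorem final : T_final :=
  Pool.Agent.H70.DZ.co (mn Pool.Agent.H92.LIDZ.xf Pool.Agent.H73.DZL.DS Pool.Agent.H73.DZL.RT
    (wq Pool.Agent.H73.DZL.RT) Pool.Agent.H70.DZ.ga Pool.Agent.H70.DZ.gb)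

end Pool.Agent.H74.DZ
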