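import Pool.Agent.H74.DZ.MN1

/-!
# Module MN: main inequality
-/

set_option autoImplicit false

open Complex MeasureTheory Set Filter Topology Metric

namespace Pool.Agent.H74.DZ

open Pool.Agent.H23.GLH

variable {r k : ℕ}

lemma gz_zero (H T y : ℝ) : gz H T ((0 : ℝ) + y * I) = ((Real.exp (-((y - T) / H) ^ 2) : ℝ) : ℂ) := by
  unfold gz
  rw [Complex.ofReal_exp]
  congr 1
  push_cast
  have : ((0 : ℂ) + y * I - T * I) / H = ((y - T) / H) * I := by ring
  rw [this, mul_pow, I_sq]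
  ring

lemma window_lower (hGA : T_GA) (hGB : T_GB) {H T w σ₁ R M : ℝ} (hσ : 0 < σ₁) (hR : 1 ≤ R)
    (h2R : 2 * R ≤ H) (hHw : H ≤ w) (hM : 0 ≤ M) (G : ℂ → ℂ)
    (hG : ∀ s : ℂ, s.re ∈ Icc (-σ₁) R → |s.im - T| ≤ w → DifferentiableAt ℂ G s ∧ ‖G s‖ ≤ M)
    (hRt : ∀ s : ℂ, s.re = R → |s.im - T| ≤ w → ‖G s - 1‖ ≤ 1 / 10) :
    2 / 5 * H - (2 * (R + σ₁) * M + 2 * R) * (Real.exp (R ^ 2 + σ₁ ^ 2) *
        Real.exp (-(w / H) ^ 2)) ≤
      ‖∫ y in (T - w)..(T + w), gz H T ((-σ₁ : ℝ) + y * I) * G ((-σ₁ : ℝ) + y * I)‖ := by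
  have hH1 : 1 ≤ H := by linarith
  have hH0 : 0 < H := by linarith
  have hw0 : 0 ≤ w := by linarith
  set B : ℂ := ∫ y in (T - w)..(T + w), gz H T ((-σ₁ : ℝ) + y * I) * G ((-σ₁ : ℝ) + y * I) with hB
  set A : ℂ := ∫ y in (T - w)..(T + w), gz H T ((R : ℝ) + y * I) * G ((R : ℝ) + y * I) with hA
  set D1 : ℂ := ∫ y in (T - w)..(T + w), gz H T ((R : ℝ) + y * I) * (fun _ : ℂ => (1 : ℂ)) ((R : ℝ) + y * I) with hD1
  set D0 : ℂ := ∫ y in (T - w)..(T + w), gz H T ((0 : ℝ) + y * I) * (fun _ : ℂ => (1 : ℂ)) ((0 : ℝ) + y * I) with hD0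
  have hI : uIcc (-σ₁) R = Icc (-σ₁) R := uIcc_of_le (by linarith)
  have hmaxexp : ∀ a b : ℝ, max (a ^ 2) (b ^ 2) ≤ R ^ 2 + σ₁ ^ 2 →
      Real.exp ((max (a ^ 2) (b ^ 2) - w ^ 2) / H ^ 2) ≤
        Real.exp (R ^ 2 + σ₁ ^ 2) * Real.exp (-(w / H) ^ 2) := by
    intro a b hab
    rw [← Real.exp_add]
    refine Real.exp_le_exp.2 ?_
    have h1 : (max (a ^ 2) (b ^ 2) - w ^ 2) / H ^ 2 = max (a ^ 2) (b ^ 2) / H ^ 2 + -(w / H) ^ 2 := by
      rw [div_pow]; ring
    rw [h1]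
    have h2 : max (a ^ 2) (b ^ 2) / H ^ 2 ≤ R ^ 2 + σ₁ ^ 2 := by
      rw [div_le_iff₀ (by positivity)]
      have h3 : 1 ≤ H ^ 2 := one_le_pow₀ hH1
      have h4 : 0 ≤ R ^ 2 + σ₁ ^ 2 := by positivity
      nlinarith
    linarith
  have hab : ‖A - B‖ ≤ 2 * (R + σ₁) * M * (Real.exp (R ^ 2 + σ₁ ^ 2) * Real.exp (-(w / H) ^ 2)) := by
    have h1 := hGA G (-σ₁) R T w H M hH0 hw0 hM
      (fun s h1 h2 => (hG s (by rw [← hI]; exact h1) h2).1)
      (fun s h1 h2 => (hG s (by rw [← hI]; exact h1) h2.le).2)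
    have h2 : |R - -σ₁| = R + σ₁ := by rw [abs_of_pos (by linarith)]; ring
    rw [h2] at h1
    refine h1.trans ?_
    refine mul_le_mul_of_nonneg_left (hmaxexp _ _ ?_) (by positivity)
    apply max_le
    · nlinarith [sq_nonneg R]
    · nlinarith [sq_nonneg σ₁]
  have hd : ‖D1 - D0‖ ≤ 2 * R * (Real.exp (R ^ 2 + σ₁ ^ 2) * Real.exp (-(w / H) ^ 2)) := by
    have h1 := hGA (fun _ => 1) 0 R T w H 1 hH0 hw0 zero_le_one
      (fun s _ _ => differentiableAt_const _) (fun s _ _ => by simp)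
    have h2 : |R - 0| = R := by rw [sub_zero, abs_of_pos (by linarith)]
    rw [h2] at h1
    refine h1.trans ?_
    rw [mul_one]
    refine mul_le_mul_of_nonneg_left (hmaxexp _ _ ?_) (by positivity)
    apply max_le
    · nlinarith [sq_nonneg R, sq_nonneg σ₁]
    · nlinarith [sq_nonneg σ₁]
  have hD0' : 7 / 10 * H ≤ ‖D0‖ := by
    have h1 : D0 = ((∫ y in (T - w)..(T + w), Real.exp (-((y - T) / H) ^ 2) : ℝ) : ℂ) := by
      rw [hD0, ← intervalIntegral.integral_ofReal]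
      refine intervalIntegral.integral_congr fun y _ => ?_
      simp only [mul_one]
      exact gz_zero H T y
    rw [h1, Complex.norm_real, Real.norm_eq_abs]
    exact ((hGB.1 T w H hH0 hHw).1).trans (le_abs_self _)
  -- the difference at the right edge
  have hcG : ContinuousOn (fun y : ℝ => gz H T ((R : ℝ) + y * I) * G ((R : ℝ) + y * I))
      (uIcc (T - w) (T + w)) := by
    intro y hy
    rw [uIcc_of_le (by linarith)] at hy
    have h1 : DifferentiableAt ℂ G ((R : ℝ) + y * I) := by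
      refine (hG _ ?_ ?_).1
      · simp only [add_re, ofReal_re, mul_re, I_re, mul_zero, ofReal_im, I_im, mul_one, sub_self,
          add_zero]
        exact ⟨by linarith, le_rfl⟩
      · have : ((R : ℂ) + y * I).im = y := by simp
        rw [this, abs_le]
        constructor <;> linarith [hy.1, hy.2]
    have h2 : ContinuousAt (fun y : ℝ => G ((R : ℝ) + y * I)) y :=
      ContinuousAt.comp (g := G) (f := fun y : ℝ => ((R : ℝ) : ℂ) + y * I) h1.continuousAt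
        (by fun_prop)
    refine (ContinuousAt.mul ?_ h2).continuousWithinAt
    unfold gz
    fun_prop
  have hc1 : Continuous (fun y : ℝ => gz H T ((R : ℝ) + y * I) *
      (fun _ : ℂ => (1 : ℂ)) ((R : ℝ) + y * I)) := by
    unfold gz
    fun_prop
  have hAD : ‖A - D1‖ ≤ 13 / 50 * H := by
    have h1 : A - D1 = ∫ y in (T - w)..(T + w), gz H T ((R : ℝ) + y * I) *
        (fun s => G s - 1) ((R : ℝ) + y * I) := by
      rw [hA, hD1, ← intervalIntegral.integral_sub hcG.intervalIntegrable (hc1.intervalIntegrable _ _)]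
      refine intervalIntegral.integral_congr fun y _ => ?_
      simp only
      ring
    rw [h1]
    refine (line_bound hGB hH0 hHw (by norm_num : (0 : ℝ) ≤ 1 / 10) (fun s => G s - 1) fun y hy => ?_).trans ?_
    · refine hRt _ (by simp) ?_
      have : ((R : ℂ) + y * I).im = y := by simp
      rw [this, abs_le]
      constructor <;> linarith [hy.1, hy.2]
    · have h2 : (R / H) ^ 2 ≤ 1 / 4 := by
        have h3 : R / H ≤ 1 / 2 := by
          rw [div_le_iff₀ hH0]; linarith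
        have h4 : 0 ≤ R / H := by positivity
        nlinarith
      have h3 : Real.exp ((R / H) ^ 2) ≤ 13 / 10 := by
        refine (Real.exp_le_exp.2 h2).trans ?_
        have h5 := Real.exp_one_lt_d9
        have h6 : Real.exp (1 / 4) ^ 4 = Real.exp 1 := by
          rw [← Real.exp_nat_mul]; norm_num
        by_contra hcon
        push Not at hcon
        have h7 : (13 / 10 : ℝ) ^ 4 < Real.exp (1 / 4) ^ 4 := pow_lt_pow_left₀ hcon (by norm_num) (by norm_num)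
        rw [h6] at h7
        norm_num at h7
        linarith
      nlinarith
  have t1 := norm_sub_norm_le A B
  have t2 := norm_sub_norm_le D1 A
  have t3 := norm_sub_norm_le D0 D1
  rw [norm_sub_rev] at t2 t3
  have e : (2 * (R + σ₁) * M + 2 * R) * (Real.exp (R ^ 2 + σ₁ ^ 2) * Real.exp (-(w / H) ^ 2)) =
    2 * (R + σ₁) * M * (Real.exp (R ^ 2 + σ₁ ^ 2) * Real.exp (-(w / H) ^ 2)) +
      2 * R * (Real.exp (R ^ 2 + σ₁ ^ 2) * Real.exp (-(w / H) ^ 2)) := by ring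
  rw [e]
  linarith

lemma window_upper (hGA : T_GA) (hGB : T_GB) {H T w σ₁ C₂ Λ η : ℝ} (hσ : 0 < σ₁) (hH1 : 1 ≤ H)
    (hHw : H ≤ w) (hC₂ : 0 ≤ C₂) (γ G : ℂ → ℂ)
    (hγ : ∀ s : ℂ, |s.re| ≤ σ₁ + H → |s.im - T| ≤ w →
      DifferentiableAt ℂ γ s ∧ ‖γ s‖ ≤ C₂ * Real.exp (-s.re * Λ))
    {ι : Type} [Countable ι] (c : ι → ℂ) (l : ι → ℝ)
    (hS : Summable fun x => ‖c x‖ * Real.exp (-(σ₁ * l x)))
    (hG : ∀ y : ℝ, |y - T| ≤ w → G ((-σ₁ : ℝ) + y * I) =
      γ ((-σ₁ : ℝ) + y * I) * ∑' x, c x * cexp (((-σ₁ : ℝ) + y * I) * l x)) :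
    ‖∫ y in (T - w)..(T + w), gz H T ((-σ₁ : ℝ) + y * I) * G ((-σ₁ : ℝ) + y * I)‖ ≤
      2 * H * Real.exp ((1 + σ₁) ^ 2) * C₂ * Real.exp (σ₁ * Λ) *
        ((∑' x, (if |l x - Λ| ≤ η then ‖c x‖ * Real.exp (-(σ₁ * l x)) else 0)) +
          (Real.exp (-(H * η)) + Real.exp (-(w / H) ^ 2)) *
            ∑' x, ‖c x‖ * Real.exp (-(σ₁ * l x))) := by
  have hH0 : 0 < H := by linarith
  have hw : T - w ≤ T + w := by linarith
  -- the terms
  set F : ι → ℝ → ℂ := fun x y => gz H T ((-σ₁ : ℝ) + y * I) *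
    (γ ((-σ₁ : ℝ) + y * I) * (c x * cexp (((-σ₁ : ℝ) + y * I) * l x))) with hF
  have hre : ∀ y : ℝ, (((-σ₁ : ℝ) : ℂ) + y * I).re = -σ₁ := fun y => by simp
  have him : ∀ y : ℝ, (((-σ₁ : ℝ) : ℂ) + y * I).im = y := fun y => by simp
  have hmem : ∀ y : ℝ, y ∈ Icc (T - w) (T + w) → |y - T| ≤ w := by
    intro y hy
    rw [abs_le]; constructor <;> linarith [hy.1, hy.2]
  have hγy : ∀ y : ℝ, y ∈ Icc (T - w) (T + w) →
      DifferentiableAt ℂ γ ((-σ₁ : ℝ) + y * I) ∧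
        ‖γ ((-σ₁ : ℝ) + y * I)‖ ≤ C₂ * Real.exp (σ₁ * Λ) := by
    intro y hy
    have h1 := hγ ((-σ₁ : ℝ) + y * I) (by rw [hre, abs_neg, abs_of_pos hσ]; linarith)
      (by rw [him]; exact hmem y hy)
    rw [hre, neg_neg] at h1
    exact h1
  have hexpn : ∀ (x : ι) (y : ℝ), ‖cexp (((-σ₁ : ℝ) + y * I) * l x)‖ = Real.exp (-(σ₁ * l x)) := by
    intro x y
    rw [Complex.norm_exp]
    congr 1
    have : ((((-σ₁ : ℝ) : ℂ) + y * I) * (l x : ℂ)).re = -σ₁ * l x := by simp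
    rw [this]; ring
  have hgzb : ∀ y : ℝ, ‖gz H T ((-σ₁ : ℝ) + y * I)‖ ≤ Real.exp ((-σ₁ / H) ^ 2) := by
    intro y
    rw [hGB.2 H T (-σ₁) y hH0]
    have : Real.exp (-((y - T) / H) ^ 2) ≤ 1 := by
      rw [Real.exp_le_one_iff]
      nlinarith [sq_nonneg ((y - T) / H)]
    nlinarith [Real.exp_pos ((-σ₁ / H) ^ 2)]
  set bnd : ι → ℝ := fun x => Real.exp ((-σ₁ / H) ^ 2) * (C₂ * Real.exp (σ₁ * Λ)) *
    (‖c x‖ * Real.exp (-(σ₁ * l x))) with hbnd
  have hbS : Summable bnd := hS.mul_left _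
  have hFb : ∀ x y, y ∈ Icc (T - w) (T + w) → ‖F x y‖ ≤ bnd x := by
    intro x y hy
    simp only [hF, hbnd]
    rw [norm_mul, norm_mul, norm_mul, hexpn]
    have h1 := hgzb y
    have h2 := (hγy y hy).2
    calc ‖gz H T ((-σ₁ : ℝ) + y * I)‖ * (‖γ ((-σ₁ : ℝ) + y * I)‖ * (‖c x‖ * Real.exp (-(σ₁ * l x))))
        ≤ Real.exp ((-σ₁ / H) ^ 2) * ((C₂ * Real.exp (σ₁ * Λ)) * (‖c x‖ * Real.exp (-(σ₁ * l x)))) := by
          gcongr
      _ = _ := by ring
  have hcont : ∀ x, ContinuousOn (F x) (Icc (T - w) (T + w)) := by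
    intro x y hy
    have h1 := (hγy y hy).1
    have h2 : ContinuousAt (fun y : ℝ => γ ((-σ₁ : ℝ) + y * I)) y :=
      ContinuousAt.comp (g := γ) (f := fun y : ℝ => ((-σ₁ : ℝ) : ℂ) + y * I) h1.continuousAt
        (by fun_prop)
    refine (ContinuousAt.mul ?_ (h2.mul ?_)).continuousWithinAt
    · unfold gz; fun_prop
    · fun_prop
  have hsum : HasSum (fun x => ∫ y in (T - w)..(T + w), F x y)
      (∫ y in (T - w)..(T + w), gz H T ((-σ₁ : ℝ) + y * I) * G ((-σ₁ : ℝ) + y * I)) := by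
    refine intervalIntegral.hasSum_integral_of_dominated_convergence (fun x _ => bnd x) ?_ ?_ ?_ ?_ ?_
    · intro x
      refine ContinuousOn.aestronglyMeasurable ?_ measurableSet_uIoc
      refine (hcont x).mono ?_
      rw [uIoc_of_le hw]
      exact Ioc_subset_Icc_self
    · intro x
      refine Filter.Eventually.of_forall fun y hy => ?_
      rw [uIoc_of_le hw] at hy
      exact hFb x y (Ioc_subset_Icc_self hy)
    · exact Filter.Eventually.of_forall fun y _ => hbS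
    · exact intervalIntegrable_const
    · refine Filter.Eventually.of_forall fun y hy => ?_
      rw [uIoc_of_le hw] at hy
      have hy' := Ioc_subset_Icc_self hy
      have hs1 : Summable fun x => c x * cexp (((-σ₁ : ℝ) + y * I) * l x) := by
        refine Summable.of_norm_bounded hS fun x => ?_
        rw [norm_mul, hexpn]
      have h1 := (hs1.hasSum.mul_left (γ ((-σ₁ : ℝ) + y * I))).mul_left (gz H T ((-σ₁ : ℝ) + y * I))
      rw [← hG y (hmem y hy')] at h1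
      exact h1
  -- bound of each integral
  set K : ℝ := 2 * H * Real.exp ((1 + σ₁) ^ 2) * C₂ * Real.exp (σ₁ * Λ) with hK
  set ε : ℝ := Real.exp (-(H * η)) + Real.exp (-(w / H) ^ 2) with hε
  have hε0 : 0 < ε := by positivity
  have hK0 : 0 ≤ K := by positivity
  set nr : ι → ℝ := fun x => if |l x - Λ| ≤ η then ‖c x‖ * Real.exp (-(σ₁ * l x)) else 0 with hnr
  have hnrS : Summable nr := by
    refine Summable.of_nonneg_of_le (fun x => ?_) (fun x => ?_) hS
    · simp only [hnr]; split_ifs <;> positivity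
    · simp only [hnr]; split_ifs
      · exact le_rfl
      · positivity
  have hterm : ∀ x, ‖∫ y in (T - w)..(T + w), F x y‖ ≤
      K * (nr x + ε * (‖c x‖ * Real.exp (-(σ₁ * l x)))) := by
    intro x
    have e1 : (∫ y in (T - w)..(T + w), F x y) = c x * ∫ y in (T - w)..(T + w),
        gz H T ((-σ₁ : ℝ) + y * I) * (γ ((-σ₁ : ℝ) + y * I) * cexp (((-σ₁ : ℝ) + y * I) * l x)) := by
      rw [← intervalIntegral.integral_const_mul]
      refine intervalIntegral.integral_congr fun y _ => ?_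
      simp only [hF]
      ring
    obtain ⟨f1, f2⟩ := freq hGA hGB (l := l x) (η := η) hσ hH1 hHw hC₂ γ hγ
    have e2 : Real.exp (-σ₁ * (l x - Λ)) = Real.exp (σ₁ * Λ) * Real.exp (-(σ₁ * l x)) := by
      rw [← Real.exp_add]; congr 1; ring
    rw [e1, norm_mul]
    by_cases hnear : |l x - Λ| ≤ η
    · have : nr x = ‖c x‖ * Real.exp (-(σ₁ * l x)) := by simp only [hnr]; rw [if_pos hnear]
      rw [this]
      have h3 := mul_le_mul_of_nonneg_left f1 (norm_nonneg (c x))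
      refine h3.trans ?_
      rw [e2]
      have h4 : 0 ≤ K * (ε * (‖c x‖ * Real.exp (-(σ₁ * l x)))) := by positivity
      have h5 : ‖c x‖ * (2 * H * Real.exp ((1 + σ₁) ^ 2) * C₂ *
          (Real.exp (σ₁ * Λ) * Real.exp (-(σ₁ * l x)))) =
          K * (‖c x‖ * Real.exp (-(σ₁ * l x))) := by rw [hK]; ring
      rw [h5, mul_add]
      linarith
    · have : nr x = 0 := by simp only [hnr]; rw [if_neg hnear]
      rw [this]
      have h3 := mul_le_mul_of_nonneg_left (f2 (not_le.1 hnear).le) (norm_nonneg (c x))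
      refine h3.trans (le_of_eq ?_)
      rw [e2, hK]
      ring
  have hsumB : HasSum (fun x => K * (nr x + ε * (‖c x‖ * Real.exp (-(σ₁ * l x)))))
      (K * ((∑' x, nr x) + ε * ∑' x, ‖c x‖ * Real.exp (-(σ₁ * l x)))) :=
    (hnrS.hasSum.add (hS.hasSum.mul_left ε)).mul_left K
  rw [← hsum.tsum_eq]
  exact tsum_of_norm_bounded hsumB hterm

lemma num1 {L K : ℝ} (h : K + 1 ≤ L) (hL : 0 ≤ L) : K * L + -(L ^ 2) ≤ -L := by nlinarith

lemma num2 {L : ℝ} (h : 1 ≤ L) : -(L ^ 2) ≤ -L := by nlinarith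

lemma num3 {L K C : ℝ} (h : K + 1 ≤ C) (hL : 0 ≤ L) : -(C * L) ≤ -(K * L) + -L := by nlinarith

lemma num4 {L K : ℝ} (h : K + 1 ≤ L) (hL : 0 ≤ L) : -(L ^ 2) ≤ -(K * L) + -L := by nlinarith

lemma num5 {σ H : ℝ} (hσ : 0 ≤ σ) (hH : 1 ≤ H) : σ + H ≤ (1 + σ) * H := by nlinarith

lemma num6 {T x w : ℝ} (h1 : T - x ≤ w) (h2 : T / 2 ≤ x) (hw : 0 ≤ w) (hT : 0 ≤ T) :
    (T - x) * T ≤ 2 * w * x := by
  rcases le_total (T - x) 0 with h | h
  · nlinarith
  · nlinarith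

lemma num7 {H A : ℝ} (hH : 1 ≤ H) (hcon : A < 1 / 8)
    (h : 2 / 5 * H - 1 / 20 ≤ 2 * H * (A + 1 / 40)) : False := by nlinarith

lemma num8 {e X Y Q : ℝ} (h : e * (20 * ((X + Y) * Q)) ≤ 1) : X * Q * e + Y * Q * e ≤ 1 / 20 := by
  nlinarith

lemma num9 {e X : ℝ} (h : e * (20 * (4 * X)) ≤ 1) : 2 * X * e ≤ 1 / 40 := by nlinarith

theorem mn (hXF : T_XF) (hDS : T_DS) (hRT : T_RT) (hWQ : T_WQ) (hGA : T_GA) (hGB : T_GB) :
    T_MN := by
  intro r k f h σ₁ hd hσ habs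
  obtain ⟨ι, hι, c, l, hS, -, hser⟩ := hDS r k (fun i => (f i).bar) (fun j => (h j).bar) σ₁ habs
  obtain ⟨γ, Cγ, tγ, hCγ, htγ, hγ⟩ := gam hXF f h
  obtain ⟨R, hR1, hR⟩ := hRT r k f h
  obtain ⟨CG, W, tG, hCG, hW, htG, hG⟩ := hWQ r k f h (σ₁ + R) (by linarith)
  set d : ℝ := deg f h with hdd
  set S : ℝ := ∑' x, ‖c x‖ * Real.exp (-(σ₁ * l x)) with hSdef
  have hS0 : 0 ≤ S := tsum_nonneg fun x => by positivity
  set C₂ : ℝ := Cγ * Real.exp 1 with hC₂
  have hC₂0 : 0 < C₂ := by positivity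
  set E : ℝ := Real.exp ((1 + σ₁) ^ 2) * C₂ * Real.exp (σ₁ * Con f h) with hE
  have hE0 : 0 < E := by positivity
  set C : ℝ := 2 * R + 8 * (1 + σ₁) ^ 2 + 2 * d * (1 + σ₁) + d * σ₁ + 1 + 8 * E with hC
  have hC1 : 1 ≤ C := by
    rw [hC]
    have : 0 ≤ (1 + σ₁) ^ 2 := by positivity
    have h2 : 0 ≤ d * (1 + σ₁) := by positivity
    linarith [mul_pos hd hσ]
  set Q : ℝ := 20 * ((2 * (R + σ₁) + 2 * R) * Real.exp (R ^ 2 + σ₁ ^ 2)) + 20 * (4 * E * S) + 1 with hQ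
  have hQ0 : 0 < Q := by positivity
  refine ⟨ι, hι, c, l, C, W, 2 * tγ + tG + Q + Real.exp (CG + d * σ₁ + 2), hS, hC1, hW, ?_, ?_⟩
  · have := Real.exp_pos (CG + d * σ₁ + 2); linarith
  intro T H w hT hH hw hCHw hexc
  have hexp0 := Real.exp_pos (CG + d * σ₁ + 2)
  have hTγ : 2 * tγ ≤ T := by linarith
  have hTG : tG ≤ T := by linarith
  have hTQ : Q ≤ T := by linarith
  have hTe : Real.exp (CG + d * σ₁ + 2) ≤ T := by linarith
  have hT0 : 0 < T := by linarith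
  set L : ℝ := Real.log T with hL
  have hLT : Real.exp L = T := Real.exp_log hT0
  have hdσ : 0 < d * σ₁ := mul_pos hd hσ
  have hL0 : CG + d * σ₁ + 2 ≤ L := by
    rw [← Real.log_exp (CG + d * σ₁ + 2)]
    exact Real.log_le_log hexp0 hTe
  have hL1 : 1 ≤ L := by linarith
  have hH1 : 1 ≤ H := hC1.trans hH
  have hH0 : 0 < H := by linarith
  have hHw : H ≤ w := (le_mul_of_one_le_right hH0.le hL1).trans hw
  have hw0 : 0 < w := by linarith
  have hC8 : 8 * (1 + σ₁) ^ 2 ≤ C := by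
    rw [hC]
    have h2 : 0 ≤ d * (1 + σ₁) := by positivity
    linarith
  have hC2d : 2 * d * (1 + σ₁) ≤ C := by
    rw [hC]
    have : 0 ≤ (1 + σ₁) ^ 2 := by positivity
    linarith
  have hC2R : 2 * R ≤ C := by
    rw [hC]
    have : 0 ≤ (1 + σ₁) ^ 2 := by positivity
    have h2 : 0 ≤ d * (1 + σ₁) := by positivity
    linarith
  have hCdσ : d * σ₁ + 1 ≤ C := by
    rw [hC]
    have : 0 ≤ (1 + σ₁) ^ 2 := by positivity
    have h2 : 0 ≤ d * (1 + σ₁) := by positivity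
    linarith
  have hC8E : 8 * E ≤ C := by
    rw [hC]
    have : 0 ≤ (1 + σ₁) ^ 2 := by positivity
    have h2 : 0 ≤ d * (1 + σ₁) := by positivity
    linarith
  have h8 : 8 ≤ C := by
    have : 1 ≤ (1 + σ₁) ^ 2 := one_le_pow₀ (by linarith)
    linarith
  have hHw0 : 0 < H * w := by positivity
  have hwT : w ≤ T / 2 := by
    have : 8 * w ≤ C * (H * w) := by
      have h1 : w ≤ H * w := le_mul_of_one_le_left hw0.le hH1
      exact mul_le_mul h8 h1 hw0.le (by linarith)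
    linarith
  -- the gamma factor over the window
  set Λ : ℝ := d * L + Con f h with hΛ
  have hγ2 : ∀ s : ℂ, |s.re| ≤ σ₁ + H → |s.im - T| ≤ w →
      tγ ≤ s.im ∧ s.re ^ 2 ≤ s.im ∧ ‖γ s‖ ≤ C₂ * Real.exp (-s.re * Λ) := by
    intro s h1 h2
    have h2' := abs_le.1 h2
    have him : T / 2 ≤ s.im := by linarith
    have him0 : 0 < s.im := by linarith
    have hre2 : s.re ^ 2 ≤ s.im := by
      rw [← sq_abs]
      have h3 : |s.re| ≤ (1 + σ₁) * H := h1.trans (num5 hσ.le hH1)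
      have h4 : |s.re| ^ 2 ≤ ((1 + σ₁) * H) ^ 2 := pow_le_pow_left₀ (abs_nonneg _) h3 2
      have h5 : ((1 + σ₁) * H) ^ 2 ≤ (1 + σ₁) ^ 2 * (H * w) := by
        rw [mul_pow]
        refine mul_le_mul_of_nonneg_left ?_ (by positivity)
        rw [sq]
        exact mul_le_mul_of_nonneg_left hHw hH0.le
      have h6 : 8 * ((1 + σ₁) ^ 2 * (H * w)) ≤ T := by
        refine le_trans ?_ hCHw
        rw [← mul_assoc]
        exact mul_le_mul_of_nonneg_right hC8 hHw0.le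
      have h7 : 0 ≤ (1 + σ₁) ^ 2 * (H * w) := by positivity
      linarith
    refine ⟨by linarith, hre2, ?_⟩
    obtain ⟨-, g2, -⟩ := hγ s (by linarith) hre2
    refine g2.trans ?_
    rw [hC₂, mul_assoc, ← Real.exp_add]
    refine mul_le_mul_of_nonneg_left (Real.exp_le_exp.2 ?_) (by linarith)
    -- compare logarithms
    have hlog : |Real.log s.im - L| ≤ 2 * w / T := by
      rw [abs_le]
      constructor
      · have h3 : Real.log (T / s.im) ≤ T / s.im - 1 := Real.log_le_sub_one_of_pos (by positivity)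
        rw [Real.log_div hT0.ne' him0.ne'] at h3
        have h4 : T / s.im - 1 ≤ 2 * w / T := by
          have h5 : T / s.im - 1 = (T - s.im) / s.im := by field_simp
          rw [h5, div_le_div_iff₀ him0 hT0]
          have h6 : T - s.im ≤ w := by linarith
          exact num6 h6 him hw0.le hT0.le
        have : Real.log s.im - L = -(Real.log T - Real.log s.im) := by rw [hL]; ring
        rw [this]
        linarith
      · have h3 : Real.log (s.im / T) ≤ s.im / T - 1 := Real.log_le_sub_one_of_pos (by positivity)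
        rw [Real.log_div him0.ne' hT0.ne'] at h3
        have h4 : s.im / T - 1 ≤ 2 * w / T := by
          have h5 : s.im / T - 1 = (s.im - T) / T := by field_simp
          rw [h5]
          gcongr
          linarith
        rw [hL]
        linarith
    have h9 : -s.re * (d * Real.log s.im + Con f h) = -s.re * Λ + -s.re * d * (Real.log s.im - L) := by
      rw [hΛ]; ring
    rw [h9, add_comm]
    have h10 : -s.re * d * (Real.log s.im - L) ≤ 1 := by
      refine (le_abs_self _).trans ?_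
      rw [abs_mul, abs_mul, abs_neg, abs_of_pos hd]
      have h3 : |s.re| ≤ (1 + σ₁) * H := h1.trans (num5 hσ.le hH1)
      calc |s.re| * d * |Real.log s.im - L| ≤ (1 + σ₁) * H * d * (2 * w / T) := by gcongr
        _ = (2 * d * (1 + σ₁)) * (H * w) / T := by ring
        _ ≤ C * (H * w) / T := by gcongr
        _ ≤ 1 := by rw [div_le_one hT0]; exact hCHw
    linarith
  have hγ3 : ∀ s : ℂ, |s.re| ≤ σ₁ + H → |s.im - T| ≤ w →
      DifferentiableAt ℂ γ s ∧ ‖γ s‖ ≤ C₂ * Real.exp (-s.re * Λ) := by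
    intro s h1 h2
    obtain ⟨a1, a2, a3⟩ := hγ2 s h1 h2
    exact ⟨(hγ s a1 a2).1, a3⟩
  -- the quotient
  obtain ⟨G, hG'⟩ := hG T w hTG hw0.le hwT hexc
  have hGl : ∀ y : ℝ, |y - T| ≤ w → G ((-σ₁ : ℝ) + y * I) =
      γ ((-σ₁ : ℝ) + y * I) * ∑' x, c x * cexp (((-σ₁ : ℝ) + y * I) * l x) := by
    intro y hy
    set s : ℂ := ((-σ₁ : ℝ) : ℂ) + y * I with hs
    have hre : s.re = -σ₁ := by simp [hs]
    have him : s.im = y := by simp [hs]
    have h1 : |s.re| ≤ σ₁ + R := by rw [hre, abs_neg, abs_of_pos hσ]; linarith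
    have h1' : |s.re| ≤ σ₁ + H := by rw [hre, abs_neg, abs_of_pos hσ]; linarith
    have h2 : |s.im - T| ≤ w := by rw [him]; exact hy
    obtain ⟨a1, a2, -⟩ := hγ2 s h1' h2
    have h3 := (hγ s a1 a2).2.2 (G s) (hG' s h1 h2).2.2
    obtain ⟨b1, b2⟩ := hser (-s) (by rw [neg_re, hre, neg_neg])
    rw [b2] at h3
    have h4 : PL (fun j => (h j).bar) (-s) * G s =
        PL (fun j => (h j).bar) (-s) * (γ s * ∑' x, c x * cexp (-(-s * l x))) := by
      rw [h3]; ring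
    have h5 := mul_left_cancel₀ b1 h4
    rw [h5]
    congr 1
    refine tsum_congr fun x => ?_
    rw [neg_mul, neg_neg]
  have hlow := window_lower hGA hGB hσ hR1 (hC2R.trans hH) hHw (by positivity : 0 ≤ T ^ CG) G
    (fun s h1 h2 => by
      have h3 : |s.re| ≤ σ₁ + R := by rw [abs_le]; constructor <;> linarith [h1.1, h1.2]
      exact ⟨(hG' s h3 h2).1, (hG' s h3 h2).2.1⟩)
    (fun s h1 h2 => by
      have h3 : |s.re| ≤ σ₁ + R := by rw [h1, abs_of_pos (by linarith)]; linarith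
      obtain ⟨q1, q2⟩ := hR s h1.ge
      have hne : PL h s ≠ 0 := by
        intro h0; rw [h0, norm_zero] at q1; linarith
      have h4 : G s = PL f s / PL h s := by
        rw [eq_div_iff hne, ← (hG' s h3 h2).2.2]; ring
      rw [h4]; exact q2)
  have hup := window_upper (η := C * L / H) hGA hGB hσ hH1 hHw hC₂0.le γ G hγ3 c l hS hGl
  -- numerics
  have hwH : L ≤ w / H := by rw [le_div_iff₀ hH0]; linarith
  have hexpw : Real.exp (-(w / H) ^ 2) ≤ Real.exp (-(L ^ 2)) := by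
    refine Real.exp_le_exp.2 ?_
    have : L ^ 2 ≤ (w / H) ^ 2 := pow_le_pow_left₀ (by linarith) hwH 2
    linarith
  have hTinv : Real.exp (-L) * Q ≤ 1 := by
    rw [Real.exp_neg, hLT, inv_mul_le_iff₀ hT0]
    linarith
  have hA1 : (2 * (R + σ₁) * T ^ CG + 2 * R) * (Real.exp (R ^ 2 + σ₁ ^ 2) *
      Real.exp (-(w / H) ^ 2)) ≤ 1 / 20 := by
    have hTC : T ^ CG = Real.exp (CG * L) := by
      rw [Real.rpow_def_of_pos hT0, mul_comm]
    have h1 : T ^ CG * Real.exp (-(w / H) ^ 2) ≤ Real.exp (-L) := by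
      rw [hTC]
      calc Real.exp (CG * L) * Real.exp (-(w / H) ^ 2) ≤ Real.exp (CG * L) * Real.exp (-(L ^ 2)) := by
            gcongr
        _ = Real.exp (CG * L + -(L ^ 2)) := by rw [Real.exp_add]
        _ ≤ Real.exp (-L) := Real.exp_le_exp.2 (num1 (by linarith) (by linarith))
    have h2 : Real.exp (-(w / H) ^ 2) ≤ Real.exp (-L) :=
      hexpw.trans (Real.exp_le_exp.2 (num2 hL1))
    have h3 : (2 * (R + σ₁) * T ^ CG + 2 * R) * (Real.exp (R ^ 2 + σ₁ ^ 2) *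
        Real.exp (-(w / H) ^ 2)) = 2 * (R + σ₁) * Real.exp (R ^ 2 + σ₁ ^ 2) *
          (T ^ CG * Real.exp (-(w / H) ^ 2)) + 2 * R * Real.exp (R ^ 2 + σ₁ ^ 2) *
            Real.exp (-(w / H) ^ 2) := by ring
    rw [h3]
    have h4 : 2 * (R + σ₁) * Real.exp (R ^ 2 + σ₁ ^ 2) * (T ^ CG * Real.exp (-(w / H) ^ 2)) ≤
        2 * (R + σ₁) * Real.exp (R ^ 2 + σ₁ ^ 2) * Real.exp (-L) := by gcongr
    have h5 : 2 * R * Real.exp (R ^ 2 + σ₁ ^ 2) * Real.exp (-(w / H) ^ 2) ≤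
        2 * R * Real.exp (R ^ 2 + σ₁ ^ 2) * Real.exp (-L) := by gcongr
    have h6 : 20 * ((2 * (R + σ₁) + 2 * R) * Real.exp (R ^ 2 + σ₁ ^ 2)) ≤ Q := by
      rw [hQ]
      have : 0 ≤ 20 * (4 * E * S) := by positivity
      linarith
    have h7 : Real.exp (-L) * (20 * ((2 * (R + σ₁) + 2 * R) * Real.exp (R ^ 2 + σ₁ ^ 2))) ≤ 1 :=
      (mul_le_mul_of_nonneg_left h6 (Real.exp_pos _).le).trans hTinv
    exact (add_le_add h4 h5).trans (num8 h7)
  have hεb : Real.exp (-(H * (C * L / H))) + Real.exp (-(w / H) ^ 2) ≤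
      2 * Real.exp (-(d * σ₁ * L)) * Real.exp (-L) := by
    have h1 : H * (C * L / H) = C * L := by field_simp
    rw [h1]
    have h2 : Real.exp (-(C * L)) ≤ Real.exp (-(d * σ₁ * L)) * Real.exp (-L) := by
      rw [← Real.exp_add]
      exact Real.exp_le_exp.2 (num3 hCdσ (by linarith))
    have h3 : Real.exp (-(w / H) ^ 2) ≤ Real.exp (-(d * σ₁ * L)) * Real.exp (-L) := by
      refine hexpw.trans ?_
      rw [← Real.exp_add]
      exact Real.exp_le_exp.2 (num4 (by linarith) (by linarith))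
    linarith
  have hTd : T ^ (d * σ₁) = Real.exp (d * σ₁ * L) := by
    rw [Real.rpow_def_of_pos hT0, mul_comm]
  have hexpΛ : Real.exp ((1 + σ₁) ^ 2) * C₂ * Real.exp (σ₁ * Λ) = E * T ^ (d * σ₁) := by
    rw [hTd, hE, hΛ, mul_assoc _ (Real.exp (σ₁ * Con f h)), ← Real.exp_add]
    congr 2
    ring
  set nr : ℝ := ∑' x, (if |l x - Λ| ≤ C * L / H then ‖c x‖ * Real.exp (-(σ₁ * l x)) else 0) with hnr
  have hnr0 : 0 ≤ nr := by
    refine tsum_nonneg fun x => ?_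
    split_ifs <;> positivity
  have h20 : E * T ^ (d * σ₁) * ((Real.exp (-(H * (C * L / H))) + Real.exp (-(w / H) ^ 2)) * S) ≤
      1 / 40 := by
    have h1 : E * T ^ (d * σ₁) * ((Real.exp (-(H * (C * L / H))) + Real.exp (-(w / H) ^ 2)) * S) ≤
        E * T ^ (d * σ₁) * ((2 * Real.exp (-(d * σ₁ * L)) * Real.exp (-L)) * S) := by
      gcongr
    refine h1.trans ?_
    have h2 : T ^ (d * σ₁) * Real.exp (-(d * σ₁ * L)) = 1 := by
      rw [hTd, ← Real.exp_add]; simp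
    have h3 : E * T ^ (d * σ₁) * ((2 * Real.exp (-(d * σ₁ * L)) * Real.exp (-L)) * S) =
        2 * E * S * Real.exp (-L) * (T ^ (d * σ₁) * Real.exp (-(d * σ₁ * L))) := by ring
    rw [h3, h2, mul_one]
    have h6 : 20 * (4 * E * S) ≤ Q := by
      rw [hQ]
      have : 0 ≤ 20 * ((2 * (R + σ₁) + 2 * R) * Real.exp (R ^ 2 + σ₁ ^ 2)) := by positivity
      linarith
    have h7 : Real.exp (-L) * (20 * (4 * E * S)) ≤ 1 :=
      (mul_le_mul_of_nonneg_left h6 (Real.exp_pos _).le).trans hTinv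
    have h8 : Real.exp (-L) * (20 * (4 * (E * S))) ≤ 1 := by
      rw [← mul_assoc 4 E S]; exact h7
    have h9 := num9 h8
    rw [← mul_assoc 2 E S] at h9
    exact h9
  have hfinal : 2 / 5 * H - 1 / 20 ≤ 2 * H * (E * T ^ (d * σ₁) * nr + 1 / 40) := by
    have e1 : 2 * H * Real.exp ((1 + σ₁) ^ 2) * C₂ * Real.exp (σ₁ * Λ) *
        (nr + (Real.exp (-(H * (C * L / H))) + Real.exp (-(w / H) ^ 2)) * S) =
        2 * H * (E * T ^ (d * σ₁) * nr + E * T ^ (d * σ₁) *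
          ((Real.exp (-(H * (C * L / H))) + Real.exp (-(w / H) ^ 2)) * S)) := by
      rw [← hexpΛ]; ring
    rw [e1] at hup
    have h1 := hlow.trans hup
    have h2 : 2 * H * (E * T ^ (d * σ₁) * nr + E * T ^ (d * σ₁) *
          ((Real.exp (-(H * (C * L / H))) + Real.exp (-(w / H) ^ 2)) * S)) ≤
        2 * H * (E * T ^ (d * σ₁) * nr + 1 / 40) := by gcongr
    linarith
  have hTd0 : 0 < T ^ (d * σ₁) := Real.rpow_pos_of_pos hT0 _
  have h30 : 1 / 8 ≤ E * T ^ (d * σ₁) * nr := by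
    by_contra hcon
    exact num7 hH1 (not_le.1 hcon) hfinal
  have h31 : 8 * E * T ^ (d * σ₁) * nr ≤ C * T ^ (d * σ₁) * nr := by
    gcongr
  calc (1 : ℝ) ≤ 8 * E * T ^ (d * σ₁) * nr := by linarith
    _ ≤ C * T ^ (d * σ₁) * nr := h31

end Pool.Agent.H74.DZ
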