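import Pool.Agent.H74.DZ.WQ

/-!
# Module MN, part 1: the combined gamma factor and the integral of one frequency
-/

set_option autoImplicit false

open Complex MeasureTheory Set Filter Topology Metric

namespace Pool.Agent.H74.DZ

open Pool.Agent.H23.GLH

variable {r k : ℕ}

/-- combined gamma factor -/
lemma gam (hXF : T_XF) (f : Fin r → Fac) (h : Fin k → Fac) :
    ∃ (γ : ℂ → ℂ) (C t₀ : ℝ), 1 ≤ C ∧ 1 ≤ t₀ ∧ ∀ s : ℂ, t₀ ≤ s.im → s.re ^ 2 ≤ s.im →
      DifferentiableAt ℂ γ s ∧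
      ‖γ s‖ ≤ C * Real.exp (-s.re * (deg f h * Real.log s.im + Con f h)) ∧
      ∀ G : ℂ, PL h s * G = PL f s →
        PL (fun j => (h j).bar) (-s) * G = γ s * PL (fun i => (f i).bar) (-s) := by
  choose X C t hC ht h1 h2 using fun i => hXF (f i)
  choose Y D u hD hu g1 g2 using fun j => hXF (h j)
  have hsumt : 0 ≤ ∑ i, t i := Finset.sum_nonneg fun i _ => by linarith [ht i]
  have hsumu : 0 ≤ ∑ j, u j := Finset.sum_nonneg fun j _ => by linarith [hu j]
  have hone : ∀ {n : ℕ} (E : Fin n → ℝ), (∀ i, 1 ≤ E i) → 1 ≤ ∏ i, E i := by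
    intro n E hE
    have := Finset.prod_le_prod (s := Finset.univ) (f := fun _ : Fin n => (1 : ℝ)) (g := E)
      (fun i _ => zero_le_one) (fun i _ => hE i)
    simpa using this
  have hCp : 1 ≤ ∏ i, C i := hone C hC
  have hDp : 1 ≤ ∏ j, D j := hone D hD
  refine ⟨fun s => (∏ i, X i s) / ∏ j, Y j s, (∏ i, C i) * ∏ j, D j, 1 + ∑ i, t i + ∑ j, u j,
    by nlinarith, by linarith, ?_⟩
  intro s hs hs2
  have hti : ∀ i, t i ≤ s.im := fun i => by
    have : t i ≤ ∑ i, t i :=
      Finset.single_le_sum (f := t) (fun i _ => by linarith [ht i]) (Finset.mem_univ i)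
    linarith
  have huj : ∀ j, u j ≤ s.im := fun j => by
    have : u j ≤ ∑ j, u j :=
      Finset.single_le_sum (f := u) (fun j _ => by linarith [hu j]) (Finset.mem_univ j)
    linarith
  have hYlow : ∀ j, (D j)⁻¹ * Real.exp (-s.re * ((h j).a * Real.log s.im + (h j).con)) ≤ ‖Y j s‖ :=
    fun j => (g2 j s (huj j) hs2).1
  have hYpos : ∀ j, 0 < (D j)⁻¹ * Real.exp (-s.re * ((h j).a * Real.log s.im + (h j).con)) := by
    intro j
    have := hD j
    positivity
  have hYne : ∀ j, Y j s ≠ 0 := by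
    intro j h0
    have := hYlow j
    rw [h0, norm_zero] at this
    linarith [hYpos j]
  have hYp : ∏ j, Y j s ≠ 0 := Finset.prod_ne_zero_iff.2 fun j _ => hYne j
  refine ⟨?_, ?_, ?_⟩
  · refine DifferentiableAt.div ?_ ?_ hYp
    · exact DifferentiableAt.fun_finsetProd (fun i _ => (h1 i s (hti i)).1)
    · exact DifferentiableAt.fun_finsetProd (fun j _ => (g1 j s (huj j)).1)
  · simp only
    rw [norm_div, norm_prod, norm_prod]
    have hnum : ∏ i, ‖X i s‖ ≤
        ∏ i, (C i * Real.exp (-s.re * ((f i).a * Real.log s.im + (f i).con))) :=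
      Finset.prod_le_prod (fun i _ => norm_nonneg _) fun i _ => (h2 i s (hti i) hs2).2
    have hden : ∏ j, ((D j)⁻¹ * Real.exp (-s.re * ((h j).a * Real.log s.im + (h j).con))) ≤
        ∏ j, ‖Y j s‖ :=
      Finset.prod_le_prod (fun j _ => (hYpos j).le) fun j _ => hYlow j
    have hdenpos : 0 < ∏ j, ((D j)⁻¹ * Real.exp (-s.re * ((h j).a * Real.log s.im + (h j).con))) :=
      Finset.prod_pos fun j _ => hYpos j
    refine (div_le_div₀ (Finset.prod_nonneg fun i _ => by
      have := hC i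
      positivity) hnum hdenpos hden).trans (le_of_eq ?_)
    rw [Finset.prod_mul_distrib, Finset.prod_mul_distrib, ← Real.exp_sum, ← Real.exp_sum,
      Finset.prod_inv_distrib]
    have e1 : ∑ i, -s.re * ((f i).a * Real.log s.im + (f i).con) =
        -s.re * ((∑ i, (f i).a) * Real.log s.im + ∑ i, (f i).con) := by
      rw [← Finset.mul_sum, Finset.sum_add_distrib, Finset.sum_mul]
    have e2 : ∑ j, -s.re * ((h j).a * Real.log s.im + (h j).con) =
        -s.re * ((∑ j, (h j).a) * Real.log s.im + ∑ j, (h j).con) := by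
      rw [← Finset.mul_sum, Finset.sum_add_distrib, Finset.sum_mul]
    have e3 : Real.exp (-s.re * (deg f h * Real.log s.im + Con f h)) =
        Real.exp (-s.re * ((∑ i, (f i).a) * Real.log s.im + ∑ i, (f i).con)) /
          Real.exp (-s.re * ((∑ j, (h j).a) * Real.log s.im + ∑ j, (h j).con)) := by
      rw [← Real.exp_sub]
      congr 1
      unfold deg Con
      ring
    rw [e1, e2, e3]
    have hDp0 : ∏ j, D j ≠ 0 := by positivity
    field_simp
  · intro G hG
    have hf : PL f s = (∏ i, X i s) * PL (fun i => (f i).bar) (-s) := by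
      unfold PL
      rw [← Finset.prod_mul_distrib]
      exact Finset.prod_congr rfl fun i _ => (h1 i s (hti i)).2
    have hh : PL h s = (∏ j, Y j s) * PL (fun j => (h j).bar) (-s) := by
      unfold PL
      rw [← Finset.prod_mul_distrib]
      exact Finset.prod_congr rfl fun j _ => (g1 j s (huj j)).2
    rw [hf, hh] at hG
    simp only
    rw [div_mul_eq_mul_div, eq_div_iff hYp]
    linear_combination hG

lemma line_bound (hGB : T_GB) {H T w a M : ℝ} (hH : 0 < H) (hHw : H ≤ w) (hM : 0 ≤ M) (F : ℂ → ℂ)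
    (hF : ∀ y ∈ Icc (T - w) (T + w), ‖F (a + y * I)‖ ≤ M) :
    ‖∫ y in (T - w)..(T + w), gz H T (a + y * I) * F (a + y * I)‖ ≤
      Real.exp ((a / H) ^ 2) * M * (2 * H) := by
  have hw : T - w ≤ T + w := by linarith
  have hcont : Continuous fun y : ℝ => Real.exp ((a / H) ^ 2) * M * Real.exp (-((y - T) / H) ^ 2) := by
    fun_prop
  have h1 := intervalIntegral.norm_integral_le_of_norm_le (μ := volume) (a := T - w) (b := T + w)
    (f := fun y : ℝ => gz H T (a + y * I) * F (a + y * I))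
    (g := fun y : ℝ => Real.exp ((a / H) ^ 2) * M * Real.exp (-((y - T) / H) ^ 2)) hw
    (Filter.Eventually.of_forall fun y hy => by
      rw [norm_mul, hGB.2 H T a y hH]
      have := hF y ⟨hy.1.le, hy.2⟩
      calc Real.exp ((a / H) ^ 2) * Real.exp (-((y - T) / H) ^ 2) * ‖F (a + y * I)‖
          ≤ Real.exp ((a / H) ^ 2) * Real.exp (-((y - T) / H) ^ 2) * M := by gcongr
        _ = Real.exp ((a / H) ^ 2) * M * Real.exp (-((y - T) / H) ^ 2) := by ring)
    (hcont.intervalIntegrable _ _)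
  refine h1.trans ?_
  rw [intervalIntegral.integral_const_mul]
  exact mul_le_mul_of_nonneg_left (hGB.1 T w H hH hHw).2 (by positivity)

/-- the integral of one frequency -/
lemma freq (hGA : T_GA) (hGB : T_GB) {H T w σ₁ C₂ Λ l η : ℝ} (hσ : 0 < σ₁) (hH1 : 1 ≤ H)
    (hHw : H ≤ w) (hC₂ : 0 ≤ C₂) (γ : ℂ → ℂ)
    (hγ : ∀ s : ℂ, |s.re| ≤ σ₁ + H → |s.im - T| ≤ w →
      DifferentiableAt ℂ γ s ∧ ‖γ s‖ ≤ C₂ * Real.exp (-s.re * Λ)) :
    ‖∫ y in (T - w)..(T + w), gz H T ((-σ₁ : ℝ) + y * I) *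
        (γ ((-σ₁ : ℝ) + y * I) * cexp (((-σ₁ : ℝ) + y * I) * l))‖ ≤
      2 * H * Real.exp ((1 + σ₁) ^ 2) * C₂ * Real.exp (-σ₁ * (l - Λ)) ∧
    (η ≤ |l - Λ| →
    ‖∫ y in (T - w)..(T + w), gz H T ((-σ₁ : ℝ) + y * I) *
        (γ ((-σ₁ : ℝ) + y * I) * cexp (((-σ₁ : ℝ) + y * I) * l))‖ ≤
      2 * H * Real.exp ((1 + σ₁) ^ 2) * C₂ * Real.exp (-σ₁ * (l - Λ)) *
        (Real.exp (-(H * η)) + Real.exp (-(w / H) ^ 2))) := by
  have hH0 : 0 < H := by linarith
  -- size of the integrand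
  have hsize : ∀ s : ℂ, |s.re| ≤ σ₁ + H → |s.im - T| ≤ w →
      ‖γ s * cexp (s * l)‖ ≤ C₂ * Real.exp (s.re * (l - Λ)) := by
    intro s h1 h2
    rw [norm_mul, Complex.norm_exp]
    have e : (s * (l : ℂ)).re = s.re * l := by simp
    rw [e]
    calc ‖γ s‖ * Real.exp (s.re * l) ≤ C₂ * Real.exp (-s.re * Λ) * Real.exp (s.re * l) := by
          gcongr
          exact (hγ s h1 h2).2
      _ = C₂ * Real.exp (s.re * (l - Λ)) := by
          rw [mul_assoc, ← Real.exp_add]
          congr 2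
          ring
  have hline : ∀ a : ℝ, |a| ≤ σ₁ + H →
      ‖∫ y in (T - w)..(T + w), gz H T (a + y * I) * (γ (a + y * I) * cexp ((a + y * I) * l))‖ ≤
        Real.exp ((a / H) ^ 2) * (C₂ * Real.exp (a * (l - Λ))) * (2 * H) := by
    intro a ha
    refine line_bound hGB hH0 hHw (by positivity) (fun s => γ s * cexp (s * l)) fun y hy => ?_
    have h1 : ((a : ℂ) + y * I).re = a := by simp
    have h2 : ((a : ℂ) + y * I).im = y := by simp
    have := hsize (a + y * I) (by rw [h1]; exact ha) (by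
      rw [h2, abs_le]; constructor <;> linarith [hy.1, hy.2])
    rw [h1] at this
    exact this
  have hsq : ∀ a : ℝ, |a| ≤ σ₁ + H → (a / H) ^ 2 ≤ (1 + σ₁) ^ 2 := by
    intro a ha
    rw [div_pow, div_le_iff₀ (by positivity), ← mul_pow, ← sq_abs]
    refine pow_le_pow_left₀ (abs_nonneg _) (ha.trans ?_) 2
    nlinarith
  constructor
  · have ha : |(-σ₁ : ℝ)| ≤ σ₁ + H := by rw [abs_neg, abs_of_pos hσ]; linarith
    refine (hline (-σ₁) ha).trans ?_
    calc Real.exp ((-σ₁ / H) ^ 2) * (C₂ * Real.exp (-σ₁ * (l - Λ))) * (2 * H)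
        ≤ Real.exp ((1 + σ₁) ^ 2) * (C₂ * Real.exp (-σ₁ * (l - Λ))) * (2 * H) := by
          have := Real.exp_le_exp.2 (hsq _ ha)
          gcongr
      _ = _ := by ring
  · intro hη
    -- choice of the direction
    obtain ⟨b, hb1, hb2, hb3, hb4⟩ : ∃ b : ℝ, |b| ≤ σ₁ + H ∧ |b - (-σ₁)| ≤ H ∧
        (∀ x ∈ uIcc (-σ₁) b, |x| ≤ σ₁ + H ∧
          Real.exp (x * (l - Λ)) ≤ Real.exp (-σ₁ * (l - Λ))) ∧
        Real.exp (b * (l - Λ)) ≤ Real.exp (-σ₁ * (l - Λ)) * Real.exp (-(H * η)) := by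
      rcases le_total 0 (l - Λ) with hpos | hneg
      · refine ⟨-σ₁ - H, ?_, ?_, ?_, ?_⟩
        · rw [abs_le]; constructor <;> linarith
        · rw [abs_le]; constructor <;> linarith
        · intro x hx
          rw [uIcc_of_ge (by linarith)] at hx
          refine ⟨by rw [abs_le]; constructor <;> linarith [hx.1, hx.2], ?_⟩
          exact Real.exp_le_exp.2 (mul_le_mul_of_nonneg_right hx.2 hpos)
        · rw [← Real.exp_add]
          refine Real.exp_le_exp.2 ?_
          rw [abs_of_nonneg hpos] at hη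
          nlinarith
      · refine ⟨-σ₁ + H, ?_, ?_, ?_, ?_⟩
        · rw [abs_le]; constructor <;> linarith
        · rw [abs_le]; constructor <;> linarith
        · intro x hx
          rw [uIcc_of_le (by linarith)] at hx
          refine ⟨by rw [abs_le]; constructor <;> linarith [hx.1, hx.2], ?_⟩
          exact Real.exp_le_exp.2 (mul_le_mul_of_nonpos_right hx.1 hneg)
        · rw [← Real.exp_add]
          refine Real.exp_le_exp.2 ?_
          rw [abs_of_nonpos hneg] at hη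
          nlinarith
    set K : ℝ := C₂ * Real.exp (-σ₁ * (l - Λ)) with hK
    have hK0 : 0 ≤ K := by positivity
    have hga := hGA (fun s => γ s * cexp (s * l)) (-σ₁) b T w H K hH0 (by linarith) hK0
      (fun s hs1 hs2 => by
        refine DifferentiableAt.mul (hγ s (hb3 _ hs1).1 hs2).1 ?_
        fun_prop)
      (fun s hs1 hs2 => by
        refine (hsize s (hb3 _ hs1).1 hs2.le).trans ?_
        rw [hK]
        exact mul_le_mul_of_nonneg_left (hb3 _ hs1).2 hC₂)
    have hb5 := hline b hb1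
    have hmax : (max ((-σ₁) ^ 2) (b ^ 2) - w ^ 2) / H ^ 2 ≤ (1 + σ₁) ^ 2 + -(w / H) ^ 2 := by
      have h1 : max ((-σ₁) ^ 2) (b ^ 2) ≤ (1 + σ₁) ^ 2 * H ^ 2 := by
        apply max_le
        · have := hsq (-σ₁) (by rw [abs_neg, abs_of_pos hσ]; linarith)
          rw [div_pow, div_le_iff₀ (by positivity)] at this
          exact this
        · have := hsq b hb1
          rw [div_pow, div_le_iff₀ (by positivity)] at this
          exact this
      rw [div_le_iff₀ (by positivity)]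
      have h2 : ((1 + σ₁) ^ 2 + -(w / H) ^ 2) * H ^ 2 = (1 + σ₁) ^ 2 * H ^ 2 - w ^ 2 := by
        field_simp
        ring
      rw [h2]
      linarith
    have hb6 : Real.exp ((b / H) ^ 2) * (C₂ * Real.exp (b * (l - Λ))) * (2 * H) ≤
        2 * H * Real.exp ((1 + σ₁) ^ 2) * K * Real.exp (-(H * η)) := by
      calc Real.exp ((b / H) ^ 2) * (C₂ * Real.exp (b * (l - Λ))) * (2 * H)
          ≤ Real.exp ((1 + σ₁) ^ 2) *
            (C₂ * (Real.exp (-σ₁ * (l - Λ)) * Real.exp (-(H * η)))) * (2 * H) := by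
            have := Real.exp_le_exp.2 (hsq b hb1)
            gcongr
        _ = _ := by rw [hK]; ring
    have hga2 : 2 * |b - (-σ₁)| * K * Real.exp ((max ((-σ₁) ^ 2) (b ^ 2) - w ^ 2) / H ^ 2) ≤
        2 * H * Real.exp ((1 + σ₁) ^ 2) * K * Real.exp (-(w / H) ^ 2) := by
      calc 2 * |b - (-σ₁)| * K * Real.exp ((max ((-σ₁) ^ 2) (b ^ 2) - w ^ 2) / H ^ 2)
          ≤ 2 * H * K * Real.exp ((1 + σ₁) ^ 2 + -(w / H) ^ 2) := by gcongr
        _ = _ := by rw [Real.exp_add]; ring
    have htri := norm_sub_norm_le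
      (∫ y in (T - w)..(T + w), gz H T ((-σ₁ : ℝ) + y * I) *
        (γ ((-σ₁ : ℝ) + y * I) * cexp (((-σ₁ : ℝ) + y * I) * l)))
      (∫ y in (T - w)..(T + w), gz H T (b + y * I) * (γ (b + y * I) * cexp ((b + y * I) * l)))
    rw [norm_sub_rev] at htri
    have hfin := (htri.trans (hga.trans hga2))
    have : 2 * H * Real.exp ((1 + σ₁) ^ 2) * C₂ * Real.exp (-σ₁ * (l - Λ)) *
        (Real.exp (-(H * η)) + Real.exp (-(w / H) ^ 2)) =
        2 * H * Real.exp ((1 + σ₁) ^ 2) * K * Real.exp (-(H * η)) +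
        2 * H * Real.exp ((1 + σ₁) ^ 2) * K * Real.exp (-(w / H) ^ 2) := by
      rw [hK]; ring
    rw [this]
    linarith [hb5.trans hb6]

end Pool.Agent.H74.DZ
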