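import Pool.Agent.H74.DZ.Targets
import Pool.Agent.H74.LI.AS1
import Pool.Agent.H15.LI.LF
import Pool.Agent.H15.LI.QU
import Pool.Agent.H33.LI.PB
import Pool.Agent.H94.LI.GR

/-!
# Module WQ: quotient over a window without exceptional points
-/

set_option autoImplicit false

open Complex MeasureTheory Set Filter Topology Metric

namespace Pool.Agent.H74.DZ

open Pool.Agent.H23.GLH
open Pool.Agent.H74.LI (analyticAt_L order_prod)

variable {r k : ℕ}

lemma Fac.w_im (f : Fac) (s : ℂ) : (f.w s).im = f.a * s.im + f.τ := by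
  unfold Fac.w; simp

lemma Fac.w_re (f : Fac) (s : ℂ) : (f.w s).re = 1 / 2 + f.a * s.re := by
  unfold Fac.w; simp

lemma Fac.analyticAt_w (f : Fac) (s : ℂ) : AnalyticAt ℂ f.w s := by
  have : f.w = fun z => 1 / 2 + f.a * z + f.τ * I := rfl
  rw [this]; fun_prop

lemma Fac.analyticAt (f : Fac) (s : ℂ) (h : (f.w s).im ≠ 0) : AnalyticAt ℂ f.L s :=
  AnalyticAt.comp_of_eq (g := f.π.L) (f := f.w) (analyticAt_L f.π h) (f.analyticAt_w s) rfl

lemma Fac.order (f : Fac) (s : ℂ) : analyticOrderAt f.L s = analyticOrderAt f.π.L (f.w s) := by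
  have hd : deriv f.w s ≠ 0 := by
    have h1 : HasDerivAt f.w (f.a : ℂ) s := by
      have := (((hasDerivAt_id s).const_mul (f.a : ℂ)).const_add (1 / 2 : ℂ)).add_const (f.τ * I)
      rw [mul_one] at this
      exact this
    rw [h1.deriv]
    exact_mod_cast f.pos.ne'
  exact analyticOrderAt_comp_of_deriv_ne_zero (f := f.π.L) (f.analyticAt_w s) hd

/-- beyond this height all arguments have imaginary part at least 1 -/
lemma height (f : Fin r → Fac) : ∃ t₁ : ℝ, 1 ≤ t₁ ∧ ∀ s : ℂ, t₁ ≤ s.im → ∀ i, 1 ≤ ((f i).w s).im := by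
  refine ⟨1 + ∑ i, (1 + |(f i).τ|) / (f i).a, ?_, ?_⟩
  · have : 0 ≤ ∑ i, (1 + |(f i).τ|) / (f i).a := Finset.sum_nonneg fun i _ => by
      have := (f i).pos
      positivity
    linarith
  · intro s hs i
    have hpos := (f i).pos
    rw [Fac.w_im]
    have h1 : (1 + |(f i).τ|) / (f i).a ≤ ∑ i, (1 + |(f i).τ|) / (f i).a :=
      Finset.single_le_sum (f := fun i => (1 + |(f i).τ|) / (f i).a) (fun i _ => by
        have := (f i).pos
        positivity) (Finset.mem_univ i)
    have h2 : (1 + |(f i).τ|) / (f i).a ≤ s.im := by linarith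
    rw [div_le_iff₀ hpos] at h2
    have h3 := neg_abs_le (f i).τ
    linarith

lemma analyticAt_PL (f : Fin r → Fac) (s : ℂ) (h : ∀ i, ((f i).w s).im ≠ 0) :
    AnalyticAt ℂ (PL f) s :=
  Finset.analyticAt_fun_prod Finset.univ fun i _ => (f i).analyticAt s (h i)

lemma order_PL (f : Fin r → Fac) (s : ℂ) (h : ∀ i, ((f i).w s).im ≠ 0) :
    analyticOrderAt (PL f) s = ord f s := by
  unfold ord
  have : PL f = fun z => ∏ i, (f i).L z := rfl
  rw [this, order_prod Finset.univ (fun i z => (f i).L z) s (fun i _ => (f i).analyticAt s (h i))]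
  exact Finset.sum_congr rfl fun i _ => (f i).order s

lemma poly_fac (hPB : Pool.Agent.H74.LI.T_poly) (f : Fac) (B : ℝ) (hB : 0 < B) :
    ∃ P t₁ : ℝ, 0 < P ∧ 1 ≤ t₁ ∧ ∀ s : ℂ, |s.re| ≤ B → t₁ ≤ s.im → ‖f.L s‖ ≤ s.im ^ P := by
  have ha := f.pos
  obtain ⟨C, hC, h⟩ := hPB f.π (f.a * B)
  obtain ⟨t₂, ht₂, hh⟩ := height (fun _ : Fin 1 => f)
  set K : ℝ := C * (f.a + 1 + |f.τ|) ^ C with hK
  have hbase : 0 < f.a + 1 + |f.τ| := by positivity
  have hK0 : 0 < K := by rw [hK]; positivity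
  refine ⟨C + 1, max t₂ K, by positivity, ht₂.trans (le_max_left _ _), fun s hs ht => ?_⟩
  have hv2 : t₂ ≤ s.im := (le_max_left _ _).trans ht
  have hvK : K ≤ s.im := (le_max_right _ _).trans ht
  have hv : 1 ≤ s.im := ht₂.trans hv2
  have hv0 : 0 < s.im := by linarith
  have h1 : 1 ≤ (f.w s).im := hh s hv2 0
  have h1' : 1 ≤ |(f.w s).im| := h1.trans (le_abs_self _)
  have h2 : -(f.a * B) ≤ (f.w s).re := by
    rw [Fac.w_re]
    have := (abs_le.mp hs).1
    nlinarith
  refine (h _ h2 h1').trans ?_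
  have h3 : 1 + |(f.w s).im| ≤ (f.a + 1 + |f.τ|) * s.im := by
    rw [Fac.w_im]
    have h4 : |f.a * s.im + f.τ| ≤ f.a * s.im + |f.τ| := by
      refine (abs_add_le _ _).trans ?_
      rw [abs_of_nonneg (by positivity)]
    have h5 : |f.τ| ≤ |f.τ| * s.im := by nlinarith [abs_nonneg f.τ]
    nlinarith
  calc C * (1 + |(f.w s).im|) ^ C ≤ C * ((f.a + 1 + |f.τ|) * s.im) ^ C := by gcongr
    _ = K * s.im ^ C := by rw [Real.mul_rpow hbase.le hv0.le, hK]; ring
    _ ≤ s.im * s.im ^ C := by gcongr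
    _ = s.im ^ (C + 1) := by rw [Real.rpow_add hv0, Real.rpow_one]; ring

lemma poly_PL (hPB : Pool.Agent.H74.LI.T_poly) (f : Fin r → Fac) (B : ℝ) (hB : 0 < B) :
    ∃ P t₁ : ℝ, 0 < P ∧ 1 ≤ t₁ ∧ ∀ s : ℂ, |s.re| ≤ B → t₁ ≤ s.im → ‖PL f s‖ ≤ s.im ^ P := by
  choose P t hP ht h using fun i => poly_fac hPB (f i) B hB
  have hsumP : 0 ≤ ∑ i, P i := Finset.sum_nonneg fun i _ => (hP i).le
  have hsumt : 0 ≤ ∑ i, t i := Finset.sum_nonneg fun i _ => by linarith [ht i]
  refine ⟨1 + ∑ i, P i, 1 + ∑ i, t i, by linarith, by linarith, fun s hs hv => ?_⟩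
  have hv1 : 1 ≤ s.im := by linarith
  unfold PL
  rw [norm_prod]
  have h1 : ∏ i, ‖(f i).L s‖ ≤ ∏ i, s.im ^ P i := by
    apply Finset.prod_le_prod
    · intro i _; positivity
    · intro i _
      apply h i s hs
      have : t i ≤ ∑ i, t i :=
        Finset.single_le_sum (f := t) (fun i _ => by linarith [ht i]) (Finset.mem_univ i)
      linarith
  refine h1.trans ?_
  rw [← Real.rpow_sum_of_pos (by linarith)]
  exact Real.rpow_le_rpow_of_exponent_le hv1 (by linarith)

/-- open rectangles -/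
def RC (x y u v : ℝ) : Set ℂ := {s | x < s.re ∧ s.re < y ∧ u < s.im ∧ s.im < v}

lemma isOpen_RC (x y u v : ℝ) : IsOpen (RC x y u v) :=
  (isOpen_lt continuous_const continuous_re).inter
    ((isOpen_lt continuous_re continuous_const).inter
      ((isOpen_lt continuous_const continuous_im).inter (isOpen_lt continuous_im continuous_const)))

lemma convex_RC (x y u v : ℝ) : Convex ℝ (RC x y u v) :=
  (convex_halfSpace_re_gt _).inter ((convex_halfSpace_re_lt _).inter
    ((convex_halfSpace_im_gt _).inter (convex_halfSpace_im_lt _)))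

lemma closure_RC (x y u v : ℝ) {s : ℂ} (hs : s ∈ closure (RC x y u v)) :
    x ≤ s.re ∧ s.re ≤ y ∧ u ≤ s.im ∧ s.im ≤ v := by
  have hcl : IsClosed {s : ℂ | x ≤ s.re ∧ s.re ≤ y ∧ u ≤ s.im ∧ s.im ≤ v} :=
    (isClosed_le continuous_const continuous_re).inter
    ((isClosed_le continuous_re continuous_const).inter
      ((isClosed_le continuous_const continuous_im).inter
        (isClosed_le continuous_im continuous_const)))
  have hsub : RC x y u v ⊆ {s : ℂ | x ≤ s.re ∧ s.re ≤ y ∧ u ≤ s.im ∧ s.im ≤ v} :=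
    fun z hz => ⟨hz.1.le, hz.2.1.le, hz.2.2.1.le, hz.2.2.2.le⟩
  exact closure_minimal hsub hcl hs

lemma bounded_RC (x y u v : ℝ) : Bornology.IsBounded (RC x y u v) := by
  have : RC x y u v ⊆ Icc x y ×ℂ Icc u v := by
    intro s hs
    rw [mem_reProdIm]
    exact ⟨⟨hs.1.le, hs.2.1.le⟩, ⟨hs.2.2.1.le, hs.2.2.2.le⟩⟩
  exact ((isCompact_Icc.reProdIm isCompact_Icc).isBounded).subset this

theorem wq (hRT : T_RT) : T_WQ := by
  intro r k f h B hB
  have hPB : Pool.Agent.H74.LI.T_poly := Pool.Agent.H33.LI.pb Pool.Agent.H15.LI.lf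
  have hGR : Pool.Agent.H74.LI.T_growth := Pool.Agent.H94.LI.growth
  have hQU : Pool.Agent.H74.LI.T_quot := Pool.Agent.H15.LI.qu
  obtain ⟨R, hR1, hR⟩ := hRT r k f h
  obtain ⟨CG, hCG, hgr⟩ := hGR (R + B) (R + B + 1) (R + B + 2) (by linarith) (by linarith)
    (by linarith)
  set B' : ℝ := 2 * R + B + 5 with hB'
  have hB'0 : 0 < B' := by rw [hB']; linarith
  obtain ⟨P1, t1, hP1, ht1, hp1⟩ := poly_PL hPB f B' hB'0
  obtain ⟨P2, t2, hP2, ht2, hp2⟩ := poly_PL hPB h B' hB'0
  obtain ⟨t3, ht3, hh3⟩ := height f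
  obtain ⟨t4, ht4, hh4⟩ := height h
  set P : ℝ := max P1 P2 with hP
  have hP0 : 0 < P := lt_max_of_lt_left hP1
  set W : ℝ := R + B + 5 with hW
  set t₀ : ℝ := 2 * (t1 + t2 + t3 + t4 + W) + 2 ^ (1 / (2 * P)) with ht₀
  have hpow0 : 0 < (2 : ℝ) ^ (1 / (2 * P)) := by positivity
  refine ⟨(2 * P) * CG, W, t₀, by positivity, by rw [hW]; linarith, by linarith, ?_⟩
  intro T w hT hw0 hwT hexc
  have hW5 : 5 ≤ W := by rw [hW]; linarith
  have hTbig : 2 * (t1 + t2 + t3 + t4 + W) ≤ T := by linarith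
  have hT1 : 1 ≤ T := by linarith
  have hT0 : 0 < T := by linarith
  have hT2 : (2 : ℝ) ≤ T ^ (2 * P) := by
    have h1 : (2 : ℝ) ^ (1 / (2 * P)) ≤ T := by linarith
    have h2 := Real.rpow_le_rpow hpow0.le h1 (by positivity : 0 ≤ 2 * P)
    rw [← Real.rpow_mul (by norm_num)] at h2
    have h3 : 1 / (2 * P) * (2 * P) = 1 := by field_simp
    rw [h3, Real.rpow_one] at h2
    exact h2
  set U : Set ℂ := RC (-(B + 3)) (2 * R + B + 3) (T - (w + (R + B + 3))) (T + (w + (R + B + 3))) with hU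
  set V : Set ℂ := RC (-(B + 4)) (2 * R + B + 4) (T - (w + (R + B + 4))) (T + (w + (R + B + 4))) with hV
  have hVim : ∀ s ∈ V, t1 + t2 + t3 + t4 ≤ s.im := by
    intro s hs
    have := hs.2.2.1
    linarith
  have hclU : closure U ⊆ V := by
    intro s hs
    have := closure_RC _ _ _ _ hs
    refine ⟨by linarith [this.1], by linarith [this.2.1], by linarith [this.2.2.1],
      by linarith [this.2.2.2]⟩
  have him3 : ∀ s ∈ V, ∀ i, ((f i).w s).im ≠ 0 := by
    intro s hs i
    have := hh3 s (by linarith [hVim s hs]) i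
    linarith
  have him4 : ∀ s ∈ V, ∀ j, ((h j).w s).im ≠ 0 := by
    intro s hs i
    have := hh4 s (by linarith [hVim s hs]) i
    linarith
  have hDan : ∀ s ∈ V, AnalyticAt ℂ (PL h) s := fun s hs => analyticAt_PL h s (him4 s hs)
  have hNan : ∀ s ∈ V, AnalyticAt ℂ (PL f) s := fun s hs => analyticAt_PL f s (him3 s hs)
  have hDR : ∀ v : ℝ, 1 / 4 ≤ ‖PL h (R + v * I)‖ := fun v => (hR _ (by simp)).1
  obtain ⟨G, hGd, hGe⟩ := hQU U V (PL h) (PL f) (isOpen_RC _ _ _ _) (isOpen_RC _ _ _ _)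
    (convex_RC _ _ _ _).isPreconnected (bounded_RC _ _ _ _) hclU
    (fun s hs => (hDan s hs).differentiableAt.differentiableWithinAt)
    (fun s hs => (hNan s hs).differentiableAt.differentiableWithinAt)
    ⟨R + T * I, by
      refine ⟨?_, ?_, ?_, ?_⟩ <;> simp <;> linarith, by
      intro h0
      have := hDR T
      rw [h0, norm_zero] at this
      linarith⟩ (by
      intro s hs _
      have hsV := hclU hs
      have hcl := closure_RC _ _ _ _ hs
      rw [order_PL h s (him4 s hsV), order_PL f s (him3 s hsV)]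
      by_contra hcon
      push Not at hcon
      have h6 := hexc s hcon
      have h7 : |s.im - T| ≤ w + (R + B + 3) := by
        rw [abs_le]
        constructor <;> linarith [hcl.2.2.1, hcl.2.2.2]
      linarith)
  refine ⟨G, fun s h1 h3 => ?_⟩
  have h1' := abs_le.mp h1
  have h3' := abs_le.mp h3
  have hsU : s ∈ U := ⟨by linarith, by linarith, by linarith, by linarith⟩
  refine ⟨(hGd s hsU).differentiableAt ((isOpen_RC _ _ _ _).mem_nhds hsU), ?_, hGe s hsU⟩
  -- growth
  set p : ℂ := R + s.im * I with hp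
  have hball : closedBall p (R + B + 2) ⊆ U := by
    intro z hz
    rw [mem_closedBall, dist_eq_norm] at hz
    have hr := (Complex.abs_re_le_norm (z - p)).trans hz
    have hi := (Complex.abs_im_le_norm (z - p)).trans hz
    have e1 : (z - p).re = z.re - R := by simp [hp]
    have e2 : (z - p).im = z.im - s.im := by simp [hp]
    rw [e1] at hr
    rw [e2] at hi
    have hr' := abs_le.mp hr
    have hi' := abs_le.mp hi
    refine ⟨?_, ?_, ?_, ?_⟩ <;> linarith
  have hM : ∀ z ∈ closedBall p (R + B + 2), ‖PL h z‖ ≤ T ^ (2 * P) ∧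
      ‖PL f z‖ ≤ T ^ (2 * P) := by
    intro z hz
    have hzU := hball hz
    have hzV := hclU (subset_closure hzU)
    have hzi := hVim z hzV
    have hzre : |z.re| ≤ B' := by
      rw [abs_le]
      constructor <;> linarith [hzU.1, hzU.2.1]
    have hz1 : 1 ≤ z.im := by linarith
    have b1 := hp1 z hzre (by linarith)
    have b2 := hp2 z hzre (by linarith)
    have hzi2 : z.im ≤ T ^ (2 : ℝ) := by
      have h5 := hzU.2.2.2
      have h6 : z.im ≤ 2 * T := by linarith
      have h7 : (2 : ℝ) ≤ T := by linarith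
      have : T ^ (2 : ℝ) = T * T := by
        rw [Real.rpow_two]; ring
      rw [this]; nlinarith
    have hfin : z.im ^ P ≤ T ^ (2 * P) := by
      rw [Real.rpow_mul hT0.le]
      exact Real.rpow_le_rpow (by linarith) hzi2 hP0.le
    have c1 : z.im ^ P1 ≤ z.im ^ P := Real.rpow_le_rpow_of_exponent_le hz1 (le_max_left _ _)
    have c2 : z.im ^ P2 ≤ z.im ^ P := Real.rpow_le_rpow_of_exponent_le hz1 (le_max_right _ _)
    exact ⟨b2.trans (c2.trans hfin), b1.trans (c1.trans hfin)⟩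
  have hsb : s ∈ closedBall p (R + B) := by
    rw [mem_closedBall, dist_eq_norm]
    have : s - p = ((s.re - R : ℝ) : ℂ) := by
      apply Complex.ext <;> simp [hp]
    rw [this, Complex.norm_real, Real.norm_eq_abs, abs_le]
    constructor <;> linarith
  have := hgr p (T ^ (2 * P)) U (PL h) (PL f) G hT2 (isOpen_RC _ _ _ _)
    (convex_RC _ _ _ _).isPreconnected hball
    (fun z hz => (hDan z (hclU (subset_closure hz))).differentiableAt.differentiableWithinAt)
    (fun z hz => (hNan z (hclU (subset_closure hz))).differentiableAt.differentiableWithinAt)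
    hGd hGe hM (hDR s.im) s hsb
  refine this.trans (le_of_eq ?_)
  rw [← Real.rpow_mul hT0.le]

end Pool.Agent.H74.DZ
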